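import Pool.Agent.Helper76.PC.Stmts

/-!
MP_c33217_co: embeddings after the deletion of two vertices.
-/

namespace Pool.Agent.Helper76.PC

theorem st_EDE2 (h1 : ST_LST) (h2 : ST_EDEL) : ST_EDE2 := by
  intro G φ f K hE r hr y
  have hA := h2 G φ f K hE r hr
  obtain ⟨-, -, -, -, -, -, hget, -⟩ := h1
  unfold del2
  cases hq : getV y (delC r K) with
  | none =>
    exact ⟨fun r hr => by simp at hr, fun r hr => by simp at hr, fun r hr => by simp at hr,
      fun r hr => by simp at hr, fun r hr => by simp at hr, fun r hr => by simp at hr,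
      fun r hr => by simp at hr, fun r hr => by simp at hr⟩
  | some q =>
    obtain ⟨hqm, hqid⟩ := hget y (delC r K) q hq
    have hB := h2 (del G (φ r.id)) φ f (delC r K) hA q hqm
    rw [hqid] at hB
    exact hB

end Pool.Agent.Helper76.PC
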